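import Pool.Agent.Lib.MP_25e49d_an.Main

set_option autoImplicit false

open MeasureTheory

namespace Pool.Agent.Results.MP_25e49d_an.ApertureSqrt5

/-- For every aperture `α` with `√5 - 2 ≤ α ≤ 1` and every real function `f` of bounded variation
on the line, the total variation of the non-tangential maximal function of aperture `α` is at
most the total variation of `f`. -/
theorem result :
    ∀ α : ℝ, Real.sqrt 5 - 2 ≤ α → α ≤ 1 →
      ∀ f : ℝ → ℝ, BoundedVariationOn f Set.univ →
        eVariationOn
          (fun x : ℝ => sSup {v : ℝ | ∃ y t : ℝ, 0 < t ∧ |x - y| ≤ α * t ∧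
              v = (2 * t)⁻¹ * ∫ s in (y - t)..(y + t), |f s|})
          Set.univ
        ≤ eVariationOn f Set.univ := by
  intro α h0 h1 f hf
  have s0 : 0 ≤ Real.sqrt 5 := Real.sqrt_nonneg 5
  have s1 : Real.sqrt 5 ^ 2 = 5 := Real.sq_sqrt (by norm_num)
  have s2 : 2 < Real.sqrt 5 := by nlinarith
  have hα : 1 ≤ α ^ 2 + 4 * α := by nlinarith
  exact Pool.Agent.Lib.MP_25e49d_an.variation_maxFn_le hα (by linarith) h1 hf

end Pool.Agent.Results.MP_25e49d_an.ApertureSqrt5
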