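import Pool.Agent.Lib.MP_25e49d_an.BumpC

set_option autoImplicit false

open MeasureTheory Filter Topology

namespace Pool.Agent.Results.MP_25e49d_an.NoRaisedMinimum

/-- Let `α ≥ 0` and let `f` be a real function of bounded variation on the line such that between
any two peaks of `|f|` the infimum of `|f|` is its global infimum. Then `|f|` has limits `cm`, `cp`
at `-∞`, `+∞`, and the total variation of the maximal function of aperture `α` plus
`|cp - cm| / 2` is at most the total variation of `f`. -/
theorem result :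
    ∀ α : ℝ, 0 ≤ α → ∀ f : ℝ → ℝ, BoundedVariationOn f Set.univ →
      (∀ s t u : ℝ, s < t → t < u → |f t| < |f s| → |f t| < |f u| →
        ∀ x ε : ℝ, 0 < ε → ∃ z : ℝ, s < z ∧ z < u ∧ |f z| < |f x| + ε) →
      ∃ cm cp : ℝ, Tendsto (fun x => |f x|) atBot (𝓝 cm) ∧
        Tendsto (fun x => |f x|) atTop (𝓝 cp) ∧
        eVariationOn
          (fun x : ℝ => sSup {v : ℝ | ∃ y t : ℝ, 0 < t ∧ |x - y| ≤ α * t ∧
              v = (2 * t)⁻¹ * ∫ s in (y - t)..(y + t), |f s|})
          Set.univ + ENNReal.ofReal (|cp - cm| / 2)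
        ≤ eVariationOn f Set.univ := by
  intro α hα f hf hcl
  exact Pool.Agent.Lib.MP_25e49d_an.bump_main hα hf hcl

end Pool.Agent.Results.MP_25e49d_an.NoRaisedMinimum
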