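import Pool.Agent.Lib.MP_25e49d_an.ConstE

set_option autoImplicit false

open MeasureTheory

namespace Pool.Agent.Results.MP_25e49d_an.SmallConstant

/-- For every aperture `α ≥ 0` (the centred operator is `α = 0`) and every real function `f` of
bounded variation on the line, the total variation of the maximal function is at most
`1 + (10 / 3) log 2` times the total variation of `f`. -/
theorem result :
    ∀ α : ℝ, 0 ≤ α → ∀ f : ℝ → ℝ, BoundedVariationOn f Set.univ →
      eVariationOn
        (fun x : ℝ => sSup {v : ℝ | ∃ y t : ℝ, 0 < t ∧ |x - y| ≤ α * t ∧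
            v = (2 * t)⁻¹ * ∫ s in (y - t)..(y + t), |f s|})
        Set.univ
      ≤ ENNReal.ofReal (1 + 10 / 3 * Real.log 2) * eVariationOn f Set.univ := by
  intro α hα f hf
  exact Pool.Agent.Lib.MP_25e49d_an.const_main hα hf

end Pool.Agent.Results.MP_25e49d_an.SmallConstant
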