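import Pool.Agent.Lib.MP_25e49d_an.Sob.Fin

/-!
The exact constant in the gradient bound `‖(M f)'‖_p ≤ c_p ‖f'‖_p` for the uncentred maximal
operator `M = M¹` on the line, for every `1 < p < ∞`.
-/

set_option autoImplicit false

open MeasureTheory

namespace Pool.Agent.Results.MP_25e49d_an.SobolevSharp

open Pool.Agent.Lib.MP_25e49d_an

theorem result (p : ℝ) (hp : 1 < p) : ∃ c : ℝ, 0 < c ∧ c < 1 ∧
    (p - 1) * c ^ ((2 * p - 1) / (p - 1)) + (2 * p - 1) * c = p ∧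
    IsLeast {C : ℝ | 0 ≤ C ∧ ∀ f : ℝ → ℝ, (∃ B, ∀ x, |f x| ≤ B) →
      rieszVar p (fun x : ℝ => sSup {v : ℝ | ∃ y t : ℝ, 0 < t ∧ |x - y| ≤ t ∧
        v = (2 * t)⁻¹ * ∫ s in (y - t)..(y + t), |f s|}) ≤
        ENNReal.ofReal (C ^ p) * rieszVar p f} c := by
  obtain ⟨c, τ, hP, h1, he⟩ := Sob.exists_par hp
  exact ⟨c, hP.c0, h1, he, ⟨hP.c0.le, fun _ ⟨_, hB⟩ => Sob.upper hP hB⟩,
    fun _ hC => Sob.lower hp hP.c0 he hC.1 hC.2⟩

end Pool.Agent.Results.MP_25e49d_an.SobolevSharp
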